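import Pool.Agent.helper65.GD.SpecF

/-!
# Project GF (MP_ea335c_an), row XS0: the function `Q`
-/

set_option autoImplicit false

namespace Pool.Agent.GD

open Finset Metric Filter Topology

theorem XS0 : XS0_stmt := by
  intro g φ c hg hφ hpos
  have h0 : (0 : ℂ) ∈ ball (0 : ℂ) 1 := by simp
  have hG : DifferentiableOn ℂ (dslope g 0) (ball 0 1) :=
    (Complex.differentiableOn_dslope (isOpen_ball.mem_nhds h0)).2 hg.analytic
  have hmul : ∀ z, g z = z * dslope g 0 z := by
    intro z
    have h1 := sub_smul_dslope g 0 z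
    rw [hg.map_zero, sub_zero, sub_zero, smul_eq_mul] at h1
    exact h1.symm
  have hgne : ∀ z ∈ ball (0 : ℂ) 1, z ≠ 0 → g z ≠ 0 := by
    intro z hz hz0 h
    have h1 := hg.starlike z hz hz0
    rw [h, div_zero, Complex.zero_re] at h1
    exact lt_irrefl _ h1
  have hGne : ∀ z ∈ ball (0 : ℂ) 1, dslope g 0 z ≠ 0 := by
    intro z hz h
    by_cases hz0 : z = 0
    · rw [hz0, dslope_same] at h
      exact hg.deriv_ne h
    · apply hgne z hz hz0
      rw [hmul z, h, mul_zero]
  have hQ : DifferentiableOn ℂ (fun z => c * deriv φ z / dslope g 0 z) (ball 0 1) :=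
    ((hφ.deriv isOpen_ball).const_mul c).div hG hGne
  have hre : ∀ z ∈ ball (0 : ℂ) 1, z ≠ 0 → 0 < (c * deriv φ z / dslope g 0 z).re := by
    intro z hz hz0
    have h1 := hpos z hz hz0
    have h2 : c * deriv φ z / dslope g 0 z = c * (z * deriv φ z / g z) := by
      rw [hmul z, mul_div_mul_left _ _ hz0, mul_div_assoc]
    rw [h2]
    exact h1
  refine ⟨fun z => c * deriv φ z / dslope g 0 z, hQ, ?_, ?_⟩
  · intro z hz
    by_cases hz0 : z = 0
    · by_contra hcon
      rw [hz0] at hcon
      have hd : DifferentiableOn ℂ (fun z => Complex.exp (-(c * deriv φ z / dslope g 0 z))) (ball 0 1) :=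
        hQ.neg.cexp
      have hmax : IsMaxOn (norm ∘ fun z => Complex.exp (-(c * deriv φ z / dslope g 0 z))) (ball 0 1) 0 := by
        intro w hw
        show ‖Complex.exp (-(c * deriv φ w / dslope g 0 w))‖ ≤ ‖Complex.exp (-(c * deriv φ 0 / dslope g 0 0))‖
        rw [Complex.norm_exp, Complex.norm_exp, Complex.neg_re, Complex.neg_re, Real.exp_le_exp, neg_le_neg_iff]
        by_cases hw0 : w = 0
        · rw [hw0]
        · exact (not_lt.1 hcon).trans (hre w hw hw0).le
      have h2 := Complex.norm_eqOn_of_isPreconnected_of_isMaxOn (convex_ball (0 : ℂ) 1).isPreconnected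
        isOpen_ball hd h0 hmax
      have h3 : (1 / 2 : ℂ) ∈ ball (0 : ℂ) 1 := by
        rw [mem_ball_zero_iff]
        norm_num
      have h4 := h2 h3
      simp only [Function.comp_apply, Function.const_apply] at h4
      rw [Complex.norm_exp, Complex.norm_exp, Complex.neg_re, Complex.neg_re, Real.exp_eq_exp, neg_inj] at h4
      have h5 := hre (1 / 2) h3 (by norm_num)
      rw [h4] at h5
      exact hcon h5
    · exact hre z hz hz0
  · intro z hz
    have h1 := hGne z hz
    show c * (z * deriv φ z) = c * deriv φ z / dslope g 0 z * g z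
    rw [hmul z, div_mul_eq_mul_div, eq_div_iff h1]
    ring

end Pool.Agent.GD
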